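import Pool.Agent.Lib.TG.Centre
import Pool.Agent.Lib.TG.ZDim
import Pool.Agent.Lib.TG15.Defs
import Pool.Agent.Lib.TA.ZMT

/-!
# TANK G, bridge B → C, row BC8 (POINT): the local ring of the normalised model at a point is a
point of the integral closure of `k[u]`, `u` a system of parameters from a reduction of the point
-/

set_option autoImplicit false

namespace Pool.Agent.TGBC95

open Pool.Agent.TG
open Pool.Agent.TG15 (Gt hx mx)
open Pool.Agent.LU2 (locV le_locV locV_mono locV_le locV_inv locV_mem locV_locV)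

universe u

variable {k K : Type u} [Field k] [Field K] [Algebra k K] {V V' : ValuationSubring K}
  {H : Submodule k K} {f₀ g₀ : K} {n : ℕ}

/-! ### Centres -/

theorem hx_div_lt (hf : IsMin V H f₀) {h : K} (hh : h ∈ hx V H) : V.valuation (h / f₀) < 1 := by
  rcases hh.2 with rfl | ⟨y, hy, hlt⟩
  · rw [zero_div, map_zero]
    exact zero_lt_one
  have h0 : V.valuation f₀ ≠ 0 := (Valuation.ne_zero_iff _).2 hf.ne
  have h1 : V.valuation (y / f₀) ≤ 1 := (V.valuation_le_one_iff _).2 (hf.div y hy)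
  rw [map_div₀] at h1 ⊢
  have h2 := (div_le_one₀ (zero_lt_iff.2 h0)).1 h1
  exact (div_lt_one₀ (zero_lt_iff.2 h0)).2 (hlt.trans_le h2)

theorem mem_hx_of_div_lt (hf : IsMin V H f₀) {h : K} (hh : h ∈ H)
    (hlt : V.valuation (h / f₀) < 1) : h ∈ hx V H := by
  refine ⟨hh, Or.inr ⟨f₀, hf.mem, ?_⟩⟩
  have h0 : V.valuation f₀ ≠ 0 := (Valuation.ne_zero_iff _).2 hf.ne
  rw [map_div₀] at hlt
  exact (div_lt_one₀ (zero_lt_iff.2 h0)).1 hlt

theorem isMin_iff_notMem_hx {f : K} (hf : f ∈ H) : IsMin V H f ↔ f ∉ hx V H := by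
  constructor
  · intro h hmem
    have := hx_div_lt h hmem
    rw [div_self h.ne, map_one] at this
    exact lt_irrefl _ this
  · intro h
    have h0 : f ≠ 0 := by
      rintro rfl
      exact h (hx V H).zero_mem
    refine ⟨hf, h0, fun g hg => ?_⟩
    by_contra hcon
    refine h ⟨hf, Or.inr ⟨g, hg, ?_⟩⟩
    have h1 : V.valuation f ≠ 0 := (Valuation.ne_zero_iff _).2 h0
    rw [← V.valuation_le_one_iff, not_le, map_div₀] at hcon
    exact (one_lt_div₀ (zero_lt_iff.2 h1)).1 hcon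

/-- The minimal elements only depend on the point. -/
theorem isMin_of_hx_eq (h : hx V' H = hx V H) {f : K} (hf : IsMin V H f) : IsMin V' H f := by
  rw [isMin_iff_notMem_hx hf.mem, h]
  exact (isMin_iff_notMem_hx hf.mem).1 hf

/-- The centre of `V` in `A`. -/
def cen (V : ValuationSubring K) (A : Subalgebra k K) (hA : ∀ a ∈ A, a ∈ V) : Ideal A where
  carrier := {a | V.valuation (a : K) < 1}
  add_mem' := fun {a b} ha hb => by
    change V.valuation ((a : K) + (b : K)) < 1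
    exact Valuation.map_add_lt _ ha hb
  zero_mem' := by
    change V.valuation (0 : K) < 1
    rw [map_zero]
    exact zero_lt_one
  smul_mem' := fun c {a} ha => by
    change V.valuation ((c : K) * (a : K)) < 1
    rw [map_mul]
    exact Pool.Agent.ALL68.mul_lt_one_of_le_of_lt' ((V.valuation_le_one_iff _).2 (hA _ c.2)) ha

theorem mem_cen {A : Subalgebra k K} {hA : ∀ a ∈ A, a ∈ V} {a : A} :
    a ∈ cen V A hA ↔ V.valuation (a : K) < 1 := Iff.rfl

theorem cen_res (hV : ZDim k V) {A : Subalgebra k K} (hA : ∀ a ∈ A, a ∈ V) (a : A) :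
    ∃ c : k, a - algebraMap k A c ∈ cen V A hA := by
  obtain ⟨c, hc⟩ := hV.res a (hA _ a.2)
  exact ⟨c, hc⟩

theorem cen_isMaximal (hV : ZDim k V) {A : Subalgebra k K} (hA : ∀ a ∈ A, a ∈ V) :
    (cen V A hA).IsMaximal := by
  rw [Ideal.isMaximal_iff]
  constructor
  · intro h
    have h1 : V.valuation ((1 : A) : K) < 1 := h
    rw [OneMemClass.coe_one, map_one] at h1
    exact lt_irrefl _ h1
  · intro J a hJ ha haJ
    obtain ⟨c, hc⟩ := cen_res hV hA a
    have hc0 : c ≠ 0 := by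
      rintro rfl
      rw [map_zero, sub_zero] at hc
      exact ha hc
    have h1 : algebraMap k A c ∈ J := by
      have h2 := J.sub_mem haJ (hJ hc)
      rwa [sub_sub_cancel] at h2
    have h2 := J.mul_mem_left (algebraMap k A c⁻¹) h1
    rwa [← map_mul, inv_mul_cancel₀ hc0, map_one] at h2

/-- Zariski's main theorem at the centre of `V`. -/
theorem exists_zmt (hV : ZDim k V) {A : Subalgebra k K} (hfg : A.FG) (hA : ∀ a ∈ A, a ∈ V)
    {S : Set K} (hS : S ⊆ A) (hS1 : ∀ u ∈ S, V.valuation u < 1) (r : ℕ)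
    (hred : cen V A hA ^ (r + 1) ≤ Ideal.span {a : A | (a : K) ∈ S} ⊔ cen V A hA ^ (r + 2)) :
    ∃ h ∈ A, V.valuation h = 1 ∧ h ∈ ncl (Algebra.adjoin k S) ∧
      ∀ a ∈ A, ∃ e : ℕ, h ^ e * a ∈ ncl (Algebra.adjoin k S) := by
  have hle : Algebra.adjoin k S ≤ A := Algebra.adjoin_le hS
  let _ : Algebra (Algebra.adjoin k S) A := (Subalgebra.inclusion hle).toAlgebra
  have ht1 : IsScalarTower k (Algebra.adjoin k S) A := IsScalarTower.of_algebraMap_eq fun _ => rfl
  have ht2 : IsScalarTower (Algebra.adjoin k S) A K := IsScalarTower.of_algebraMap_eq fun _ => rfl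
  have hft : Algebra.FiniteType k A := A.fg_iff_finiteType.1 hfg
  have hmax := cen_isMaximal hV hA
  have hsp : Ideal.span {a : A | (a : K) ∈ S} ≤
      ((cen V A hA).under (Algebra.adjoin k S)).map (algebraMap (Algebra.adjoin k S) A) := by
    rw [Ideal.span_le]
    intro a ha
    have h1 : (a : K) ∈ Algebra.adjoin k S := Algebra.subset_adjoin ha
    have h2 : a = algebraMap (Algebra.adjoin k S) A ⟨a, h1⟩ := rfl
    rw [SetLike.mem_coe, h2]
    exact Ideal.mem_map_of_mem _ (hS1 _ ha)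
  obtain ⟨h, hh1, hh2, hh3⟩ := Pool.Agent.TA.zmt_centre (O := Algebra.adjoin k S) (cen V A hA)
    (cen_res hV hA) r (hred.trans (sup_le_sup_right hsp _))
  refine ⟨h, h.2, ?_, ?_, fun a ha => ?_⟩
  · refine le_antisymm ((V.valuation_le_one_iff _).2 (hA _ h.2)) ?_
    by_contra hcon
    exact hh1 (not_le.1 hcon)
  · exact hh2.algebraMap (B := K)
  · obtain ⟨e, he⟩ := hh3 ⟨a, ha⟩
    exact ⟨e, he.algebraMap (B := K)⟩

/-- The chart with two denominators. -/
theorem chart_res (hV : ZDim k V) (hf : IsMin V H f₀) (hg : IsMin V H g₀) (B : Subalgebra k K)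
    (hB : B = ch H f₀ ⊔ ch H g₀) (I : Ideal B)
    (hmem : ∀ x ∈ hx V H, ∃ b ∈ I, x / f₀ = (b : K)) (a : K) (ha : a ∈ B) :
    ∃ c : k, ∃ b ∈ I, a - algebraMap k K c = (b : K) := by
  have hfg : f₀ / g₀ ∈ B := hB ▸ (le_sup_right : ch H g₀ ≤ _) (div_mem_ch hf.mem)
  have hB' : B = Algebra.adjoin k ((fun g => g / f₀) '' (H : Set K) ∪
      (fun g => g / g₀) '' (H : Set K)) := by rw [hB, Algebra.adjoin_union]; rfl
  have hgen := ha
  rw [hB'] at hgen
  clear ha
  induction hgen using Algebra.adjoin_induction with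
  | mem x hx =>
    rcases hx with ⟨y, hy, rfl⟩ | ⟨y, hy, rfl⟩
    · obtain ⟨c, hc⟩ := hV.res (y / f₀) (hf.div y hy)
      obtain ⟨b, hb, hb'⟩ := hmem (y - c • f₀) (mem_hx_of_div_lt hf
        (H.sub_mem hy (H.smul_mem c hf.mem)) (by
          rwa [sub_div, Algebra.smul_def, mul_div_assoc, div_self hf.ne, mul_one]))
      refine ⟨c, b, hb, ?_⟩
      rw [← hb', sub_div, Algebra.smul_def, mul_div_assoc, div_self hf.ne, mul_one]
    · obtain ⟨c, hc⟩ := hV.res (y / g₀) (hg.div y hy)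
      obtain ⟨b, hb, hb'⟩ := hmem (y - c • g₀) (mem_hx_of_div_lt hg
        (H.sub_mem hy (H.smul_mem c hg.mem)) (by
          rwa [sub_div, Algebra.smul_def, mul_div_assoc, div_self hg.ne, mul_one]))
      refine ⟨c, ⟨f₀ / g₀, hfg⟩ * b, I.mul_mem_left _ hb, ?_⟩
      change y / g₀ - algebraMap k K c = f₀ / g₀ * (b : K)
      rw [← hb', Algebra.smul_def]
      have h1 := hf.ne
      have h2 := hg.ne
      field_simp
  | algebraMap c => exact ⟨c, 0, I.zero_mem, by rw [sub_self]; rfl⟩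
  | add x y _ _ hx hy =>
    obtain ⟨c, b, hb, h1⟩ := hx
    obtain ⟨d, e, he, h2⟩ := hy
    refine ⟨c + d, b + e, I.add_mem hb he, ?_⟩
    change _ = (b : K) + (e : K)
    rw [← h1, ← h2, map_add]
    ring
  | mul x y hx' hy' hx hy =>
    obtain ⟨c, b, hb, h1⟩ := hx
    obtain ⟨d, e, he, h2⟩ := hy
    rw [← hB'] at hx' hy'
    refine ⟨c * d, ⟨x, hx'⟩ * e + algebraMap k B d * b,
      I.add_mem (I.mul_mem_left _ he) (I.mul_mem_left _ hb), ?_⟩
    change x * y - algebraMap k K (c * d) = x * (e : K) + algebraMap k K d * (b : K)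
    rw [← h1, ← h2, map_mul]
    ring

/-- The centre in the chart with two denominators. -/
theorem map_mx_eq_cen (hV : ZDim k V) (hf : IsMin V H f₀) (hg : IsMin V H g₀) (B : Subalgebra k K)
    (hB : B = ch H f₀ ⊔ ch H g₀) (hBV : ∀ a ∈ B, a ∈ V) (φ : ch H f₀ →+* B)
    (hφ : ∀ a, (φ a : K) = (a : K)) :
    (mx H f₀ (hx V H)).map φ = cen V B hBV := by
  have h1 : (mx H f₀ (hx V H)).map φ ≤ cen V B hBV := by
    rw [mx, Ideal.map_span, Ideal.span_le]
    rintro _ ⟨a, ⟨x, hx', hax⟩, rfl⟩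
    rw [SetLike.mem_coe, mem_cen, hφ, hax]
    exact hx_div_lt hf hx'
  refine le_antisymm h1 fun a ha => ?_
  have hmem : ∀ x ∈ hx V H, ∃ b ∈ (mx H f₀ (hx V H)).map φ, x / f₀ = (b : K) := by
    intro x hx'
    have h2 : x / f₀ ∈ ch H f₀ := div_mem_ch hx'.1
    exact ⟨φ ⟨x / f₀, h2⟩, Ideal.mem_map_of_mem _ (Ideal.subset_span ⟨x, hx', rfl⟩),
      (hφ ⟨x / f₀, h2⟩).symm⟩
  obtain ⟨c, b, hb, hab⟩ := chart_res hV hf hg B hB _ hmem a a.2
  have h2 : V.valuation (algebraMap k K c) < 1 := by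
    have h3 : algebraMap k K c = (a : K) - (b : K) := by rw [← hab]; ring
    rw [h3]
    exact Valuation.map_sub_lt _ ha (h1 hb)
  have h3 : c = 0 := by
    by_contra hc
    have h4 : V.valuation (algebraMap k K c⁻¹) ≤ 1 := (V.valuation_le_one_iff _).2 (hV.ov _)
    have h5 := Pool.Agent.ALL68.mul_lt_one_of_le_of_lt' h4 h2
    rw [← map_mul, ← map_mul, inv_mul_cancel₀ hc, map_one, map_one] at h5
    exact lt_irrefl _ h5
  rw [h3, map_zero, sub_zero] at hab
  have h4 : a = b := Subtype.ext hab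
  rw [h4]
  exact hb

/-- RED in the chart with two denominators. -/
theorem red_two (hV : ZDim k V) (hf : IsMin V H f₀) (hg₀ : IsMin V H g₀) (B : Subalgebra k K)
    (hB : B = ch H f₀ ⊔ ch H g₀) (hBV : ∀ a ∈ B, a ∈ V) (φ : ch H f₀ →+* B)
    (hφ : ∀ a, (φ a : K) = (a : K)) {ι : Type*} {g : ι → K} (hg : ∀ l, g l ∈ hx V H) (r : ℕ)
    (hred : mx H f₀ (hx V H) ^ (r + 1) ≤
      Ideal.span {a : ch H f₀ | ∃ l, (a : K) = g l / f₀} ⊔ mx H f₀ (hx V H) ^ (r + 2)) :
    cen V B hBV ^ (r + 1) ≤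
      Ideal.span {a : B | (a : K) ∈ Set.range fun l => g l / g₀} ⊔ cen V B hBV ^ (r + 2) := by
  have h1 := Ideal.map_mono (f := φ) hred
  rw [Ideal.map_sup, Ideal.map_pow, Ideal.map_pow, map_mx_eq_cen hV hf hg₀ B hB hBV φ hφ] at h1
  refine h1.trans (sup_le_sup_right ?_ _)
  have hgf : g₀ / f₀ ∈ B := hB ▸ (le_sup_left : ch H f₀ ≤ _) (div_mem_ch hg₀.mem)
  rw [Ideal.map_span, Ideal.span_le]
  rintro _ ⟨a, ⟨l, hl⟩, rfl⟩
  have hgl : g l / g₀ ∈ B := hB ▸ (le_sup_right : ch H g₀ ≤ _) (div_mem_ch (hg l).1)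
  have h2 : φ a = ⟨g₀ / f₀, hgf⟩ * ⟨g l / g₀, hgl⟩ := by
    refine Subtype.ext ?_
    rw [hφ, hl, MulMemClass.coe_mul]
    have h1 := hf.ne
    have h2 := hg₀.ne
    field_simp
  rw [SetLike.mem_coe, h2]
  refine Ideal.mul_mem_left _ _ (Ideal.subset_span ?_)
  exact ⟨l, rfl⟩

/-- **POINT.** Let `g₀` be minimal and `g₁, .., gₙ` a reduction of the point of `V`; then the local
ring at `V` of the normalisation of the model `H` is the local ring of the integral closure of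
`k[g_l / g₀]`. -/
theorem NV_eq_locV_ncl (hV : ZDim k V) (hH : H.FG) (hf : IsMin V H f₀) (hg₀ : IsMin V H g₀)
    {ι : Type*} {g : ι → K} (hg : ∀ l, g l ∈ hx V H) (r : ℕ)
    (hred : mx H f₀ (hx V H) ^ (r + 1) ≤
      Ideal.span {a : ch H f₀ | ∃ l, (a : K) = g l / f₀} ⊔ mx H f₀ (hx V H) ^ (r + 2)) :
    NV V H = locV V (ncl (Algebra.adjoin k (Set.range fun l => g l / g₀))) ∧
      RV V H ≤ locV V (ncl (Algebra.adjoin k (Set.range fun l => g l / g₀))) := by
  obtain ⟨B, hB⟩ : ∃ B, B = ch H f₀ ⊔ ch H g₀ := ⟨_, rfl⟩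
  obtain ⟨C, hC⟩ : ∃ C, C = ncl (Algebra.adjoin k (Set.range fun l => g l / g₀)) := ⟨_, rfl⟩
  rw [← hC]
  have hle : ch H f₀ ≤ B := hB ▸ le_sup_left
  have hle' : ch H g₀ ≤ B := hB ▸ le_sup_right
  have hBV : ∀ a ∈ B, a ∈ V := by
    have h1 : B ≤ valg hV.ov := hB ▸ sup_le (ch_le hV.ov hf) (ch_le hV.ov hg₀)
    exact fun a ha => h1 ha
  have hBfg : B.FG := hB ▸ (ch_fg hH).sup (ch_fg hH)
  have hSB : (Set.range fun l => g l / g₀) ⊆ B := by
    rintro _ ⟨l, rfl⟩
    exact hle' (div_mem_ch (hg l).1)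
  have hS1 : ∀ u ∈ Set.range fun l => g l / g₀, V.valuation u < 1 := by
    rintro _ ⟨l, rfl⟩
    exact hx_div_lt hg₀ (hg l)
  obtain ⟨h, hhB, hh1, hhC, hhe⟩ := exists_zmt hV hBfg hBV hSB hS1 r
    (red_two hV hf hg₀ B hB hBV (Subalgebra.inclusion hle).toRingHom (fun _ => rfl) hg r hred)
  rw [← hC] at hhC hhe
  have hBC : B ≤ locV V C := by
    intro a ha
    obtain ⟨e, he⟩ := hhe a ha
    have h0 : h ≠ 0 := ne_zero_of_val_eq_one hh1
    refine ⟨h ^ e * a, he, h ^ e, C.pow_mem hhC _, by rw [map_pow, hh1, one_pow], ?_⟩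
    field_simp
  have hRV : RV V H ≤ locV V C := by
    rw [RV_eq hf]
    exact locV_le (hle.trans hBC) fun _ h h1 => locV_inv h h1
  refine ⟨le_antisymm ?_ ?_, hRV⟩
  · have h1 : NV V H ≤ locV V (ncl (locV V C)) := locV_mono (ncl_mono hRV)
    rwa [locV_ncl_locV, hC, ncl_ncl, ← hC] at h1
  · rw [hC]
    refine locV_mono (ncl_mono (Algebra.adjoin_le ?_))
    rintro _ ⟨l, rfl⟩
    exact div_mem_RV hg₀ (hg l).1

open IntermediateField.algebraAdjoinAdjoin in
/-- The parameters are algebraically independent. -/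
theorem algebraicIndependent_point (htr : Algebra.trdeg k K = n) (hH : IsModel H) (hfin : Fin' H)
    (hV : ZDim k V) {u : Fin n → K}
    (hR : RV V H ≤ locV V (ncl (Algebra.adjoin k (Set.range u)))) :
    AlgebraicIndependent k u := by
  set L := IntermediateField.adjoin k (Set.range u) with hL
  set E := algebraicClosure L K with hE
  have hC : ∀ a ∈ ncl (Algebra.adjoin k (Set.range u)), a ∈ E := by
    intro a ha
    rw [hE, mem_algebraicClosure_iff]
    have h1 : IsAlgebraic (Algebra.adjoin k (Set.range u)) a := IsIntegral.isAlgebraic ha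
    exact (IsFractionRing.isAlgebraic_iff (Algebra.adjoin k (Set.range u)) L K).1 h1
  have hRE : ∀ a ∈ RV V H, a ∈ E := by
    intro a ha
    obtain ⟨b, hb, c, hc, -, rfl⟩ := hR ha
    exact div_mem (hC b hb) (hC c hc)
  obtain ⟨f, hf⟩ := exists_isMin hV.ov hH
  have hF : IntermediateField.adjoin k {x : K | ∃ f ∈ H, ∃ g ∈ H, x = g / f} ≤
      E.restrictScalars k := by
    rw [IntermediateField.adjoin_le_iff]
    rintro _ ⟨a, ha, b, hb, rfl⟩
    have h1 : b / f ∈ E := hRE _ (div_mem_RV hf hb)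
    have h2 : a / f ∈ E := hRE _ (div_mem_RV hf ha)
    have h3 : b / a = b / f / (a / f) := by rw [div_div_div_cancel_right₀ hf.ne]
    change b / a ∈ E
    rw [h3]
    exact div_mem h1 h2
  have hK : ∀ x : K, IsAlgebraic L x := by
    intro x
    have h1 : IsAlgebraic (IntermediateField.adjoin k {x : K | ∃ f ∈ H, ∃ g ∈ H, x = g / f}) x :=
      hfin.isAlgebraic x
    have h2 : IsAlgebraic E x := by
      obtain ⟨p, hp, hpx⟩ := h1
      let ψ : (IntermediateField.adjoin k {x : K | ∃ f ∈ H, ∃ g ∈ H, x = g / f}) →+* E :=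
        ((IntermediateField.adjoin k {x : K | ∃ f ∈ H, ∃ g ∈ H, x = g / f}).val.toRingHom).codRestrict
          E.toSubfield.toSubring (fun a => hF a.2)
      refine ⟨p.map ψ, (Polynomial.map_ne_zero_iff ψ.injective).2 hp, ?_⟩
      rw [Polynomial.aeval_def, Polynomial.eval₂_map]
      exact hpx
    exact h2.restrictScalars L
  have halg : Algebra.IsAlgebraic (Algebra.adjoin k (Set.range u)) K := by
    refine ⟨fun x => ?_⟩
    have hx : IsAlgebraic (IntermediateField.adjoin k (Set.range u)) x := hK x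
    exact (IsFractionRing.isAlgebraic_iff _ _ _).2 hx
  have h3 := Algebra.IsAlgebraic.isTranscendenceBasis_of_lift_le_trdeg_of_finite k u (by
      rw [Cardinal.mk_fin, htr]
      simp)
  exact h3.1

/-- **BC8.** -/
theorem point (htr : Algebra.trdeg k K = n) (hH : IsModel H) (hfin : Fin' H) (hV : ZDim k V)
    (hf : IsMin V H f₀) (hg₀ : IsMin V H g₀) {g : Fin n → K} (hg : ∀ l, g l ∈ hx V H)
    (hred : ∃ r : ℕ, mx H f₀ (hx V H) ^ (r + 1) ≤
      Ideal.span {a : ch H f₀ | ∃ l, (a : K) = g l / f₀} * mx H f₀ (hx V H) ^ r ⊔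
        mx H f₀ (hx V H) ^ (r + 2)) :
    AlgebraicIndependent k (fun l => g l / g₀) ∧
    ∀ V' : ValuationSubring K, ZDim k V' → hx V' H = hx V H → IsMin V' H f₀ ∧ IsMin V' H g₀ ∧
      NV V' H = locV V' (ncl (Algebra.adjoin k (Set.range fun l => g l / g₀))) := by
  obtain ⟨r, hr⟩ := hred
  have hr' : mx H f₀ (hx V H) ^ (r + 1) ≤
      Ideal.span {a : ch H f₀ | ∃ l, (a : K) = g l / f₀} ⊔ mx H f₀ (hx V H) ^ (r + 2) :=
    hr.trans (sup_le_sup_right Ideal.mul_le_left _)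
  have h1 := NV_eq_locV_ncl hV hH.fg hf hg₀ hg r hr'
  refine ⟨algebraicIndependent_point htr hH hfin hV h1.2, fun V' hV' hx' => ?_⟩
  have hf' := isMin_of_hx_eq hx' hf
  have hg' := isMin_of_hx_eq hx' hg₀
  refine ⟨hf', hg', (NV_eq_locV_ncl hV' hH.fg hf' hg' (fun l => hx' ▸ hg l) r ?_).1⟩
  rw [hx']
  exact hr'

end Pool.Agent.TGBC95
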