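import Pool.Agent.Lib.TGBC_h29.Rows
import Pool.Agent.Lib.TGBC_h95.Point
import Pool.Agent.Lib.TG_h3.A0
import Pool.Agent.Lib.TG.A5
import Pool.Agent.Lib.TG.Blow
import Mathlib.FieldTheory.IsAlgClosed.Basic

/-!
# TANK G, bridge B → C: rows NPT and PROPER
-/

set_option autoImplicit false

namespace Pool.Agent.TGBC95

open Pool.Agent.TG
open Pool.Agent.TG15 (Gt hx mx)
open Pool.Agent.LU2 (locV le_locV locV_mono locV_le locV_inv locV_mem locV_locV)
open Pool.Agent.TGJ (NPt Proper)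
open Pool.Agent.TGBC (IsResOf)

universe u

variable {k K : Type u} [Field k] [Field K] [Algebra k K] {V : ValuationSubring K}
  {H : Submodule k K} {S : Subalgebra k K}

/-! ### The residue map -/

/-- The residue map of `V` on a subalgebra of `V`. -/
theorem exists_isResOf (hV : ZDim k V) (hS : ∀ a ∈ S, a ∈ V) : ∃ res : S →ₐ[k] k, IsResOf V res := by
  have h0 : ∀ s : S, ∃ c : k, V.valuation ((s : K) - algebraMap k K c) < 1 :=
    fun s => hV.res s (hS _ s.2)
  choose c hc using h0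
  have huniq : ∀ (s : S) (d : k), V.valuation ((s : K) - algebraMap k K d) < 1 → c s = d := by
    intro s d hd
    have h1 : V.valuation (algebraMap k K (c s - d)) < 1 := by
      have h2 : algebraMap k K (c s - d) =
          ((s : K) - algebraMap k K d) - ((s : K) - algebraMap k K (c s)) := by
        rw [map_sub]; ring
      rw [h2]
      exact Valuation.map_sub_lt _ hd (hc s)
    by_contra hne
    have h3 : c s - d ≠ 0 := sub_ne_zero.2 hne
    have h4 : V.valuation (algebraMap k K (c s - d)⁻¹) ≤ 1 := (V.valuation_le_one_iff _).2 (hV.ov _)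
    have h5 := Pool.Agent.ALL68.mul_lt_one_of_le_of_lt' h4 h1
    rw [← map_mul, ← map_mul, inv_mul_cancel₀ h3, map_one, map_one] at h5
    exact lt_irrefl _ h5
  refine ⟨{ toFun := c
            map_one' := huniq _ _ ?_
            map_mul' := fun a b => huniq _ _ ?_
            map_zero' := huniq _ _ ?_
            map_add' := fun a b => huniq _ _ ?_
            commutes' := fun r => huniq _ _ ?_ }, fun s => ?_⟩
  · rw [map_one, OneMemClass.coe_one, sub_self, map_zero]
    exact zero_lt_one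
  · have h1 : ((a * b : S) : K) - algebraMap k K (c a * c b) =
        (a : K) * ((b : K) - algebraMap k K (c b)) +
          algebraMap k K (c b) * ((a : K) - algebraMap k K (c a)) := by
      rw [map_mul, MulMemClass.coe_mul]; ring
    rw [h1]
    refine Valuation.map_add_lt _ ?_ ?_
    · rw [map_mul]
      exact Pool.Agent.ALL68.mul_lt_one_of_le_of_lt' ((V.valuation_le_one_iff _).2 (hS _ a.2))
        (hc b)
    · rw [map_mul]
      exact Pool.Agent.ALL68.mul_lt_one_of_le_of_lt' ((V.valuation_le_one_iff _).2 (hV.ov _))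
        (hc a)
  · rw [map_zero, ZeroMemClass.coe_zero, sub_self, map_zero]
    exact zero_lt_one
  · have h1 : ((a + b : S) : K) - algebraMap k K (c a + c b) =
        ((a : K) - algebraMap k K (c a)) + ((b : K) - algebraMap k K (c b)) := by
      rw [map_add, AddMemClass.coe_add]; ring
    rw [h1]
    exact Valuation.map_add_lt _ (hc a) (hc b)
  · have h1 : ((algebraMap k S r : S) : K) = algebraMap k K r := rfl
    have h2 : algebraMap k K (algebraMap k k r) = algebraMap k K r := rfl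
    rw [h1, h2, sub_self, map_zero]
    exact zero_lt_one
  · change c s = 0 ↔ _
    constructor
    · intro h
      have h1 := hc s
      rwa [h, map_zero, sub_zero] at h1
    · intro h
      refine huniq s 0 ?_
      rwa [map_zero, sub_zero]

theorem val_eq_one_of_res (hS : ∀ a ∈ S, a ∈ V) {res : S →ₐ[k] k} (hres : IsResOf V res) {s : S}
    (h : res s ≠ 0) : V.valuation (s : K) = 1 := by
  refine le_antisymm ((V.valuation_le_one_iff _).2 (hS _ s.2)) ?_
  by_contra hcon
  exact h ((hres s).2 (not_le.1 hcon))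

/-! ### ROW NPT -/

theorem ncl_NV_le : ∀ a : K, IsIntegral (NV V H) a → a ∈ NV V H := by
  intro a ha
  have h1 : a ∈ ncl (NV V H) := ha
  have h2 := le_locV (V := V) _ h1
  rwa [locV_ncl_NV] at h2

theorem npt_of_isResOf [PerfectField k] (hK : (⊤ : IntermediateField k K).FG) (hH : IsModel H)
    (hfin : Fin' H) (hV : ZDim k V) {res : NV V H →ₐ[k] k} (hres : IsResOf V res) :
    NPt (NV V H) res := by
  obtain ⟨f, hf⟩ := exists_isMin hV.ov hH
  have hNV := NV_eq hf
  have hle : chN H f ≤ NV V H := by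
    rw [hNV]
    exact le_locV _
  have hfg : (chN H f).FG := Pool.Agent.TGD.ncl_fg hK (ch_fg hH.fg)
    fun a => hfin.isAlgebraic hf.ne a
  refine ⟨fun a ha => NV_inv a.2 (val_eq_one_of_res (NV_le hV.ov hH) hres ha), ncl_NV_le,
    ⟨chN H f, hfg, hle, fun s => ?_⟩, fun x => ?_⟩
  · have h1 : (s : K) ∈ locV V (chN H f) := hNV.le s.2
    obtain ⟨a, ha, b, hb, hb1, hab⟩ := h1
    have hb0 : res ⟨b, hle hb⟩ ≠ 0 := by
      intro h
      have h2 := (hres _).1 h
      rw [hb1] at h2
      exact lt_irrefl _ h2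
    refine ⟨(res ⟨b, hle hb⟩)⁻¹ • ⟨a, ha⟩, (res ⟨b, hle hb⟩)⁻¹ • ⟨b, hb⟩, ?_, ?_⟩
    · have h2 : Subalgebra.inclusion hle ((res ⟨b, hle hb⟩)⁻¹ • (⟨b, hb⟩ : chN H f)) =
          (res ⟨b, hle hb⟩)⁻¹ • (⟨b, hle hb⟩ : NV V H) := rfl
      rw [h2, map_smul, smul_eq_mul, inv_mul_cancel₀ hb0]
    · have hbK : b ≠ 0 := ne_zero_of_val_eq_one hb1
      change (s : K) * ((res ⟨b, hle hb⟩)⁻¹ • b) = (res ⟨b, hle hb⟩)⁻¹ • a
      rw [hab, mul_smul_comm, div_mul_cancel₀ _ hbK]
  · obtain ⟨y, hy, hint⟩ := (hfin.isAlgebraic hf.ne x).exists_integral_multiple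
    refine ⟨⟨y • x, hle hint⟩, ⟨y, hle (le_ncl _ y.2)⟩, fun h => hy (Subtype.ext h), ?_⟩
    change x * (y : K) = (y : K) * x
    exact mul_comm _ _

theorem rowNPt (k K : Type u) [Field k] [Field K] [Algebra k K] : Pool.Agent.TGBC.RowNPt k K := by
  intro hk hK H hH hfin V hV
  obtain ⟨res, hres⟩ := exists_isResOf (S := NV V H) hV (NV_le hV.ov hH)
  exact ⟨res, hres, npt_of_isResOf hK hH hfin hV hres⟩

/-! ### ROW PROPER -/

theorem mx_span_le {n : ℕ} {f₀ : K} {g : Fin n → K} (hg : ∀ l, g l ∈ H) :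
    mx H f₀ (Submodule.span k (Set.range g)) ≤
      Ideal.span {a : ch H f₀ | ∃ l, (a : K) = g l / f₀} := by
  rw [mx, Ideal.span_le]
  rintro a ⟨h, hh, hah⟩
  have key : ∀ h ∈ Submodule.span k (Set.range g),
      ∃ b ∈ Ideal.span {a : ch H f₀ | ∃ l, (a : K) = g l / f₀}, (b : K) = h / f₀ := by
    intro h hh
    induction hh using Submodule.span_induction with
    | mem x hx =>
      obtain ⟨l, rfl⟩ := hx
      exact ⟨⟨g l / f₀, div_mem_ch (hg l)⟩, Ideal.subset_span ⟨l, rfl⟩, rfl⟩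
    | zero => exact ⟨0, Ideal.zero_mem _, by rw [zero_div]; rfl⟩
    | add x y _ _ hx hy =>
      obtain ⟨b, hb, h1⟩ := hx
      obtain ⟨c, hc, h2⟩ := hy
      refine ⟨b + c, Ideal.add_mem _ hb hc, ?_⟩
      rw [add_div, ← h1, ← h2]
      rfl
    | smul c x _ hx =>
      obtain ⟨b, hb, h1⟩ := hx
      refine ⟨c • b, ?_, ?_⟩
      · rw [Algebra.smul_def]
        exact Ideal.mul_mem_left _ _ hb
      · rw [smul_div_assoc, ← h1]
        rfl
  obtain ⟨b, hb, h1⟩ := key h hh
  have h2 : a = b := Subtype.ext (hah.trans h1.symm)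
  rw [SetLike.mem_coe, h2]
  exact hb

/-- An element of a domain over `k` which is integral over `k`-rational elements. -/
theorem proper_aux [IsAlgClosed k] {res : S →ₐ[k] k} (hS : ∀ a ∈ S, a ∈ V) (hres : IsResOf V res)
    {n : ℕ} (u : Fin n → S)
    (hloc : S ≤ locV V (ncl (Algebra.adjoin k (Set.range fun l => (u l : K)))))
    (hloc' : ncl (Algebra.adjoin k (Set.range fun l => (u l : K))) ≤ S)
    (hinv : ∀ a ∈ S, V.valuation a = 1 → a⁻¹ ∈ S)
    (hu : ∀ i, res (u i) = 0) : Proper S.val res u := by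
  refine ⟨hu, fun Q hQ _ hQu => ?_⟩
  have hmax : ∀ s ∈ Q, V.valuation (s : K) < 1 := by
    intro s hs
    by_contra hcon
    have h1 : V.valuation (s : K) = 1 :=
      le_antisymm ((V.valuation_le_one_iff _).2 (hS _ s.2)) (not_lt.1 hcon)
    have h2 := hinv _ s.2 h1
    refine hQ.ne_top ((Ideal.eq_top_iff_one _).2 ?_)
    have h3 : (1 : S) = ⟨(s : K)⁻¹, h2⟩ * s :=
      Subtype.ext (inv_mul_cancel₀ (ne_zero_of_val_eq_one h1)).symm
    rw [h3]
    exact Q.mul_mem_left _ hs
  have hadj : ∀ a : S, (a : K) ∈ Algebra.adjoin k (Set.range fun l => (u l : K)) →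
      a - algebraMap k S (res a) ∈ Q := by
    rintro ⟨a, haS⟩ ha
    change a ∈ Algebra.adjoin k _ at ha
    induction ha using Algebra.adjoin_induction with
    | mem x hx =>
      obtain ⟨i, rfl⟩ := hx
      change u i - algebraMap k S (res (u i)) ∈ Q
      rw [hu i, map_zero, sub_zero]
      exact hQu i
    | algebraMap c =>
      have h1 : (⟨algebraMap k K c, haS⟩ : S) = algebraMap k S c := rfl
      have h2 : algebraMap k k c = c := rfl
      rw [h1, AlgHom.commutes, h2, sub_self]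
      exact Q.zero_mem
    | add x y hx hy hx' hy' =>
      have hxS := hloc' (le_ncl _ hx)
      have hyS := hloc' (le_ncl _ hy)
      have h1 : (⟨x + y, haS⟩ : S) = ⟨x, hxS⟩ + ⟨y, hyS⟩ := rfl
      have h2 := Q.add_mem (hx' hxS) (hy' hyS)
      rw [h1, map_add, map_add]
      rwa [sub_add_sub_comm] at h2
    | mul x y hx hy hx' hy' =>
      have hxS := hloc' (le_ncl _ hx)
      have hyS := hloc' (le_ncl _ hy)
      have h1 : (⟨x * y, haS⟩ : S) = ⟨x, hxS⟩ * ⟨y, hyS⟩ := rfl
      have h2 := Q.add_mem (Q.mul_mem_left ⟨x, hxS⟩ (hy' hyS))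
        (Q.mul_mem_left (algebraMap k S (res ⟨y, hyS⟩)) (hx' hxS))
      have h3 : (⟨x, hxS⟩ * ⟨y, hyS⟩ : S) - algebraMap k S (res (⟨x, hxS⟩ * ⟨y, hyS⟩)) =
          ⟨x, hxS⟩ * (⟨y, hyS⟩ - algebraMap k S (res ⟨y, hyS⟩)) +
            algebraMap k S (res ⟨y, hyS⟩) * (⟨x, hxS⟩ - algebraMap k S (res ⟨x, hxS⟩)) := by
        rw [map_mul, map_mul]
        ring
      rw [h1, h3]
      exact h2
  have hint : ∀ a : S, (a : K) ∈ ncl (Algebra.adjoin k (Set.range fun l => (u l : K))) →
      res a = 0 → a ∈ Q := by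
    rintro a ⟨p, hp, hpa⟩ ha0
    obtain ⟨A, hA⟩ : ∃ A, A = Algebra.adjoin k (Set.range fun l => (u l : K)) := ⟨_, rfl⟩
    have hle : Algebra.adjoin k (Set.range fun l => (u l : K)) ≤ S := (le_ncl _).trans hloc'
    have hcomm : (Ideal.Quotient.mk Q).comp
        (Subalgebra.inclusion hle : _ →ₐ[k] S).toRingHom =
        ((algebraMap k (S ⧸ Q)).comp res.toRingHom).comp
          (Subalgebra.inclusion hle : _ →ₐ[k] S).toRingHom := by
      ext b
      have h1 := hadj (Subalgebra.inclusion hle b) b.2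
      rw [← Ideal.Quotient.eq] at h1
      exact h1
    have h1 : Polynomial.eval₂ (Subalgebra.inclusion hle : _ →ₐ[k] S).toRingHom a p = 0 := by
      apply Subtype.val_injective
      have h2 : ((Polynomial.eval₂ (Subalgebra.inclusion hle : _ →ₐ[k] S).toRingHom a p : S) : K) =
          Polynomial.eval₂ (algebraMap _ K) (a : K) p := by
        have h3 := Polynomial.hom_eval₂ p (Subalgebra.inclusion hle : _ →ₐ[k] S).toRingHom
          (S.val : S →ₐ[k] K).toRingHom a
        exact h3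
      rw [h2]
      exact hpa
    have h2 : Polynomial.eval₂ (algebraMap k (S ⧸ Q)) (Ideal.Quotient.mk Q a)
        (p.map (res.toRingHom.comp (Subalgebra.inclusion hle : _ →ₐ[k] S).toRingHom)) = 0 := by
      rw [Polynomial.eval₂_map, ← RingHom.comp_assoc, ← hcomm, ← Polynomial.hom_eval₂, h1, map_zero]
    have h3 : IsIntegral k (Ideal.Quotient.mk Q a) := ⟨_, hp.map _, h2⟩
    have h4 : (minpoly k (Ideal.Quotient.mk Q a)).degree = 1 :=
      IsAlgClosed.degree_eq_one_of_irreducible k (minpoly.irreducible h3)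
    obtain ⟨c, hc⟩ := minpoly.mem_range_of_degree_eq_one k _ h4
    have h5 : a - algebraMap k S c ∈ Q := by
      rw [← Ideal.Quotient.eq]
      exact hc.symm
    have h6 := (hres _).2 (hmax _ h5)
    have h7 : c = 0 := by
      rw [map_sub, ha0, AlgHom.commutes, zero_sub, neg_eq_zero] at h6
      exact h6
    rw [h7, map_zero, sub_zero] at h5
    exact h5
  refine le_antisymm (fun s hs => (hres s).2 (hmax s hs)) fun s hs => ?_
  obtain ⟨a, ha, b, hb, hb1, hab⟩ := hloc s.2
  have hb0 : b ≠ 0 := ne_zero_of_val_eq_one hb1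
  have h1 : (⟨a, hloc' ha⟩ : S) ∈ Q := by
    refine hint _ ha ((hres _).2 ?_)
    have h2 : a = (s : K) * b := by rw [hab, div_mul_cancel₀ _ hb0]
    change V.valuation a < 1
    rw [h2, map_mul, hb1, mul_one]
    exact (hres s).1 hs
  have h2 : s = (⟨b⁻¹, hinv _ (hloc' hb) hb1⟩ : S) * ⟨a, hloc' ha⟩ := by
    refine Subtype.ext ?_
    change (s : K) = b⁻¹ * a
    rw [hab, div_eq_inv_mul]
  rw [h2]
  exact Q.mul_mem_left _ h1

theorem proper_of_eq [IsAlgClosed k] {res : S →ₐ[k] k} (hS : ∀ a ∈ S, a ∈ V)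
    (hres : IsResOf V res) {n : ℕ} (u : Fin n → S) (w : Fin n → K) (hw : ∀ l, (u l : K) = w l)
    (hloc : S = locV V (ncl (Algebra.adjoin k (Set.range w)))) (hw1 : ∀ l, V.valuation (w l) < 1) :
    Proper S.val res u := by
  obtain rfl : (fun l => (u l : K)) = w := funext hw
  refine proper_aux hS hres u hloc.le ((le_locV _).trans hloc.ge) (fun a ha h => ?_)
    fun i => (hres _).2 (hw1 i)
  exact hloc.ge (locV_inv (hloc.le ha) h)

theorem red_aux {n : ℕ} {f₀ : K} {g : Fin n → K} (hg : ∀ l, g l ∈ hx V H) (r : ℕ)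
    (hr : mx H f₀ (hx V H) ^ (r + 1) ≤
        mx H f₀ (Submodule.span k (Set.range g)) *
          mx H f₀ (hx V H) ^ r ⊔ mx H f₀ (hx V H) ^ (r + 2)) :
    mx H f₀ (hx V H) ^ (r + 1) ≤
      Ideal.span {a : ch H f₀ | ∃ l, (a : K) = g l / f₀} ⊔ mx H f₀ (hx V H) ^ (r + 2) := by
  refine hr.trans (sup_le_sup_right ?_ _)
  exact Ideal.mul_le_left.trans (mx_span_le fun l => (hg l).1)

theorem proper_point [IsAlgClosed k] (hH : H.FG) (hV : ZDim k V) {f₀ : K} (hf : IsMin V H f₀)
    (hHm : IsModel H)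
    {res : NV V H →ₐ[k] k} (hres : IsResOf V res) {n : ℕ} {g : Fin n → K}
    (hg : ∀ l, g l ∈ hx V H) (r : ℕ)
    (hr : mx H f₀ (hx V H) ^ (r + 1) ≤
      Ideal.span {a : ch H f₀ | ∃ l, (a : K) = g l / f₀} ⊔ mx H f₀ (hx V H) ^ (r + 2))
    (u : Fin n → NV V H) (hu : ∀ l, (u l : K) = g l / f₀) : Proper (NV V H).val res u :=
  proper_of_eq (NV_le hV.ov hHm) hres u _ hu (NV_eq_locV_ncl hV hH hf hf hg r hr).1
    fun l => hx_div_lt hf (hg l)

theorem rowProper (k K : Type u) [Field k] [Field K] [Algebra k K] :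
    Pool.Agent.TGBC.RowProper k K := by
  intro hk n htr H hH hfin V hV res hres g hg hgx hred u hu
  obtain ⟨r, hr⟩ := hred
  exact proper_point hH.fg hV hg hH hres hgx r (red_aux hgx r hr) u hu

end Pool.Agent.TGBC95
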